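import Pool.Agent.V11232.ET.LFMain

namespace Pool.Agent.Results.MP_7f9305_lc.LFStronger

open Pool.Agent.V11232.ET

/-- Some language over a two-letter alphabet is generated by a propagating left forbidding E0L
grammar (so by an LF-E0L grammar) and by no ET0L grammar: `ET0L ≠ LF-E0L`. -/
theorem result : ∃ L : Language (Fin 2),
    L ∈ fLFEP (Fin 2) ∧ L ∈ fLFE (Fin 2) ∧ L ∉ fET0L (Fin 2) :=
  ⟨L1, ⟨GF, GF_forbidding, GF_propagating, GF_lang⟩, ⟨GF, GF_forbidding, GF_lang⟩, L1_not_ET0L⟩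

end Pool.Agent.Results.MP_7f9305_lc.LFStronger
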